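import Pool.Agent.Run7.h96.IX.Stm

/-! # Piece PIG of project IX (MP_bc4c60_co) -/

set_option autoImplicit false

open Finset

namespace Run7.h270.IX

open Run7.h96.IX

lemma choose_le (n i : ℕ) (hi : i ≤ n) (a : ℝ) (h0 : 0 ≤ a) (h1 : a ≤ 1) :
    (n.choose i : ℝ) * (a ^ i * (1 - a) ^ (n - i)) ≤ 1 := by
  have h := add_pow a (1 - a) n
  have h2 : a + (1 - a) = 1 := by ring
  rw [h2, one_pow] at h
  have h3 : a ^ i * (1 - a) ^ (n - i) * (n.choose i : ℝ) ≤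
      ∑ m ∈ range (n + 1), a ^ m * (1 - a) ^ (n - m) * (n.choose m : ℝ) :=
    single_le_sum (f := fun m => a ^ m * (1 - a) ^ (n - m) * (n.choose m : ℝ))
      (fun m _ => mul_nonneg (mul_nonneg (pow_nonneg h0 _) (pow_nonneg (by linarith) _))
        (Nat.cast_nonneg _)) (mem_range.2 (by omega))
  rw [← h] at h3
  rw [mul_comm]
  exact h3

lemma pow_swap (a s : ℝ) (h0 : 0 ≤ a) (i : ℕ) : (a ^ s) ^ i = (a ^ i) ^ s := by
  rw [← Real.rpow_mul_natCast h0, ← Real.rpow_natCast_mul h0, mul_comm]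

lemma term_le (n i : ℕ) (hi : i ≤ n) (a s : ℝ) (h0 : 0 ≤ a) (h1 : a ≤ 1) (hs : 0 ≤ s) :
    (n.choose i : ℝ) ^ s * ((a ^ s) ^ i * ((1 - a) ^ s) ^ (n - i)) ≤ 1 := by
  have h2 : 0 ≤ 1 - a := by linarith
  rw [pow_swap a s h0, pow_swap (1 - a) s h2, ← Real.mul_rpow (pow_nonneg h0 _) (pow_nonneg h2 _),
    ← Real.mul_rpow (Nat.cast_nonneg _) (mul_nonneg (pow_nonneg h0 _) (pow_nonneg h2 _))]
  exact Real.rpow_le_one (mul_nonneg (Nat.cast_nonneg _)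
    (mul_nonneg (pow_nonneg h0 _) (pow_nonneg h2 _))) (choose_le n i hi a h0 h1) hs

theorem t_PIG : S_ID → S_PIG := by
  intro hID n s x a b hs hx ha0 ha1 hb0 hb1
  have h := hID n (a ^ s) ((1 - a) ^ s) (b ^ s) ((1 - b) ^ s) x
  have ha2 : 0 ≤ 1 - a := by linarith
  have hb2 : 0 ≤ 1 - b := by linarith
  obtain ⟨U, hU⟩ : ∃ U : ℕ → ℝ, ∀ i, U i = (a ^ s) ^ i * ((1 - a) ^ s) ^ (n - i) :=
    ⟨_, fun i => rfl⟩
  obtain ⟨W, hW⟩ : ∃ W : ℕ → ℝ, ∀ j, W j = (b ^ s) ^ j * ((1 - b) ^ s) ^ (n - j) :=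
    ⟨_, fun j => rfl⟩
  have hU0 : ∀ i, 0 ≤ U i := by
    intro i
    rw [hU]
    exact mul_nonneg (pow_nonneg (Real.rpow_nonneg ha0 s) _) (pow_nonneg (Real.rpow_nonneg ha2 s) _)
  have hW0 : ∀ i, 0 ≤ W i := by
    intro i
    rw [hW]
    exact mul_nonneg (pow_nonneg (Real.rpow_nonneg hb0 s) _) (pow_nonneg (Real.rpow_nonneg hb2 s) _)
  have hg : g s x a b ^ n = ∑ p : Finset (Fin n) × Finset (Fin n),
      x ^ ((p.1 ∩ p.2).card) * U p.1.card * W p.2.card := by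
    have h1 := Fintype.sum_prod_type' (fun A B : Finset (Fin n) =>
      x ^ ((A ∩ B).card) * U A.card * W B.card)
    rw [h1]
    unfold g
    rw [← h]
    refine Finset.sum_congr rfl fun A _ => Finset.sum_congr rfl fun B _ => ?_
    rw [hU, hW]
  obtain ⟨R, hR⟩ : ∃ R : Finset (ℕ × ℕ × ℕ),
      R = range (n + 1) ×ˢ (range (n + 1) ×ˢ range (n + 1)) := ⟨_, rfl⟩
  have hmaps : ∀ p ∈ (univ : Finset (Finset (Fin n) × Finset (Fin n))),
      ((p.1.card, p.2.card, (p.1 ∩ p.2).card) : ℕ × ℕ × ℕ) ∈ R := by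
    intro p _
    have h1 : p.1.card ≤ n := by simpa using p.1.card_le_univ
    have h2 : p.2.card ≤ n := by simpa using p.2.card_le_univ
    have h3 : (p.1 ∩ p.2).card ≤ p.1.card := card_le_card inter_subset_left
    rw [hR, mem_product, mem_product, mem_range, mem_range, mem_range]
    exact ⟨Nat.lt_succ_of_le h1, Nat.lt_succ_of_le h2, Nat.lt_succ_of_le (h3.trans h1)⟩
  have hgroup : g s x a b ^ n = ∑ T ∈ R, x ^ T.2.2 * U T.1 * W T.2.1 *
      (cnt T.2.2 (powersetCard T.1 (univ : Finset (Fin n))) (powersetCard T.2.1 univ) : ℝ) := by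
    rw [hg, ← sum_fiberwise_of_maps_to hmaps]
    refine sum_congr rfl fun T _ => ?_
    have h1 : ∀ p ∈ (univ : Finset (Finset (Fin n) × Finset (Fin n))).filter
        (fun p => ((p.1.card, p.2.card, (p.1 ∩ p.2).card) : ℕ × ℕ × ℕ) = T),
        x ^ ((p.1 ∩ p.2).card) * U p.1.card * W p.2.card = x ^ T.2.2 * U T.1 * W T.2.1 := by
      intro p hp
      rw [mem_filter] at hp
      rw [← hp.2]
    rw [sum_congr rfl h1, sum_const, nsmul_eq_mul, mul_comm]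
    congr 2
    unfold cnt
    congr 1
    ext p
    rw [mem_filter, mem_filter, mem_product, mem_powersetCard_univ, mem_powersetCard_univ]
    constructor
    · rintro ⟨_, h2⟩
      rw [← h2]
      exact ⟨⟨rfl, rfl⟩, rfl⟩
    · rintro ⟨⟨h2, h3⟩, h4⟩
      refine ⟨mem_univ _, ?_⟩
      rw [h2, h3, h4]
  have hn : (0:ℝ) < ((n : ℝ) + 1) ^ 3 := by positivity
  have hne : R.Nonempty := ⟨(0, 0, 0), by
    rw [hR]
    simp⟩
  have hcard : (R.card : ℝ) = ((n : ℝ) + 1) ^ 3 := by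
    rw [hR, card_product, card_product, card_range]
    push_cast
    ring
  have hsum : ∑ _T ∈ R, g s x a b ^ n / ((n : ℝ) + 1) ^ 3 ≤ ∑ T ∈ R, x ^ T.2.2 * U T.1 * W T.2.1 *
      (cnt T.2.2 (powersetCard T.1 (univ : Finset (Fin n))) (powersetCard T.2.1 univ) : ℝ) := by
    rw [← hgroup, sum_const, nsmul_eq_mul, hcard]
    exact le_of_eq (mul_div_cancel₀ _ hn.ne')
  obtain ⟨⟨i, j, lam⟩, hT, hle⟩ := exists_le_of_sum_le hne hsum
  rw [hR, mem_product, mem_product, mem_range, mem_range, mem_range] at hT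
  simp only at hT hle
  obtain ⟨hi, hj, hl⟩ := hT
  refine ⟨i, j, lam, by omega, by omega, by omega, ?_⟩
  rw [div_le_iff₀ hn] at hle
  obtain ⟨c, hc⟩ : ∃ c : ℝ, c = (cnt lam (powersetCard i (univ : Finset (Fin n)))
    (powersetCard j univ) : ℝ) := ⟨_, rfl⟩
  rw [← hc] at hle ⊢
  have hc0 : 0 ≤ c := by
    rw [hc]
    exact Nat.cast_nonneg _
  have hA : (n.choose i : ℝ) ^ s * U i ≤ 1 := by
    rw [hU]
    exact term_le n i (by omega) a s ha0 ha1 hs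
  have hB : (n.choose j : ℝ) ^ s * W j ≤ 1 := by
    rw [hW]
    exact term_le n j (by omega) b s hb0 hb1 hs
  have hA0 : 0 ≤ (n.choose i : ℝ) ^ s := Real.rpow_nonneg (Nat.cast_nonneg _) _
  have hB0 : 0 ≤ (n.choose j : ℝ) ^ s := Real.rpow_nonneg (Nat.cast_nonneg _) _
  rw [Real.mul_rpow (Nat.cast_nonneg _) (Nat.cast_nonneg _)]
  have hAB : ((n.choose i : ℝ) ^ s * U i) * ((n.choose j : ℝ) ^ s * W j) ≤ 1 :=
    mul_le_one₀ hA (mul_nonneg hB0 (hW0 j)) hB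
  have hK : 0 ≤ ((n : ℝ) + 1) ^ 3 * x ^ lam * c := by positivity
  calc g s x a b ^ n * ((n.choose i : ℝ) ^ s * (n.choose j : ℝ) ^ s)
      ≤ (x ^ lam * U i * W j * c * ((n : ℝ) + 1) ^ 3) *
          ((n.choose i : ℝ) ^ s * (n.choose j : ℝ) ^ s) :=
        mul_le_mul_of_nonneg_right hle (mul_nonneg hA0 hB0)
    _ = (((n : ℝ) + 1) ^ 3 * x ^ lam * c) *
          (((n.choose i : ℝ) ^ s * U i) * ((n.choose j : ℝ) ^ s * W j)) := by ring
    _ ≤ (((n : ℝ) + 1) ^ 3 * x ^ lam * c) * 1 := mul_le_mul_of_nonneg_left hAB hK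
    _ = ((n : ℝ) + 1) ^ 3 * x ^ lam * c := mul_one _

end Run7.h270.IX

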